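import Mathlib

/-!
Every nonzero form over an algebraic closure divides a nonzero form over the base field.
-/

set_option autoImplicit false

open MvPolynomial

namespace Pool.Agent.X294.NormForm

/-- A form over the algebraic closure divides a form over the base field. -/
theorem exists_norm {F : Type} [Field F] [CharZero F] {m e : ℕ}
    {H : MvPolynomial (Fin m) (AlgebraicClosure F)} (hH : H ≠ 0) (hHe : H.IsHomogeneous e) :
    ∃ (G : MvPolynomial (Fin m) F) (e' : ℕ), G ≠ 0 ∧ G.IsHomogeneous e' ∧
      H ∣ map (algebraMap F (AlgebraicClosure F)) G := by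
  classical
  let E0 : IntermediateField F (AlgebraicClosure F) :=
    IntermediateField.adjoin F ((H.support.image fun u => H.coeff u : Finset _) : Set _)
  have hfin0 : FiniteDimensional F E0 :=
    IntermediateField.finiteDimensional_adjoin fun x _ =>
      (Algebra.IsAlgebraic.isAlgebraic x).isIntegral
  let E : IntermediateField F (AlgebraicClosure F) :=
    IntermediateField.normalClosure F E0 (AlgebraicClosure F)
  have hfin : FiniteDimensional F E := normalClosure.is_finiteDimensional F E0 _
  have hE0 : E0 ≤ E := E0.le_normalClosure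
  have hnor : Normal F E := normalClosure.normal F E0 _
  have hgal : IsGalois F E := ⟨⟩
  have hcoef : ∀ u, H.coeff u ∈ E := by
    intro u
    by_cases hu : u ∈ H.support
    · exact hE0 (IntermediateField.subset_adjoin _ _ (by
        rw [Finset.coe_image]; exact ⟨u, hu, rfl⟩))
    · rw [notMem_support_iff.1 hu]; exact E.zero_mem
  obtain ⟨HE, hHE⟩ : ∃ HE : MvPolynomial (Fin m) E, ∀ u, HE.coeff u = ⟨H.coeff u, hcoef u⟩ := by
    refine ⟨∑ u ∈ H.support, monomial u ⟨H.coeff u, hcoef u⟩, fun u => ?_⟩
    rw [coeff_sum]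
    simp only [coeff_monomial]
    rw [Finset.sum_ite_eq']
    split_ifs with h
    · rfl
    · apply Subtype.ext
      rw [notMem_support_iff] at h
      simp [h]
  have hmapHE : map (algebraMap E (AlgebraicClosure F)) HE = H := by
    ext u
    rw [coeff_map, hHE]
    rfl
  have hHE0 : HE ≠ 0 := by
    rintro rfl
    apply hH
    rw [← hmapHE, map_zero]
  have hHEe : HE.IsHomogeneous e := by
    intro u hu
    apply hHe
    intro h0
    apply hu
    rw [hHE]
    apply Subtype.ext
    exact h0
  obtain ⟨GE, hGE⟩ : ∃ GE : MvPolynomial (Fin m) E, GE = ∏ σ : E ≃ₐ[F] E, map (σ : E →+* E) HE :=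
    ⟨_, rfl⟩
  have hfix : ∀ (τ : E ≃ₐ[F] E), map (τ : E →+* E) GE = GE := by
    intro τ
    rw [hGE, map_prod]
    refine Fintype.prod_equiv (Equiv.mulLeft τ) _ _ fun σ => ?_
    rw [map_map]
    rfl
  have hbot : ∀ u, ∃ c : F, algebraMap F E c = GE.coeff u := by
    intro u
    have h1 : GE.coeff u ∈ (⊥ : IntermediateField F E) := by
      rw [IsGalois.mem_bot_iff_fixed]
      intro τ
      conv_rhs => rw [← hfix τ]
      rw [coeff_map]
      rfl
    exact IntermediateField.mem_bot.1 h1
  choose c hc using hbot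
  obtain ⟨G, hG⟩ : ∃ G : MvPolynomial (Fin m) F, ∀ u, algebraMap F E (G.coeff u) = GE.coeff u := by
    refine ⟨∑ u ∈ GE.support, monomial u (c u), fun u => ?_⟩
    rw [coeff_sum]
    simp only [coeff_monomial]
    rw [Finset.sum_ite_eq']
    split_ifs with h
    · exact hc u
    · rw [notMem_support_iff] at h
      rw [map_zero, h]
  have hGmap : map (algebraMap F E) G = GE := by
    ext u
    rw [coeff_map, hG]
  have hGEe : GE.IsHomogeneous (∑ _σ : E ≃ₐ[F] E, e) := by
    rw [hGE]
    exact IsHomogeneous.prod _ _ _ fun σ _ => hHEe.map _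
  refine ⟨G, ∑ _σ : E ≃ₐ[F] E, e, ?_, ?_, ?_⟩
  · rintro rfl
    rw [map_zero, hGE] at hGmap
    obtain ⟨σ, -, hσ⟩ := Finset.prod_eq_zero_iff.1 hGmap.symm
    apply hHE0
    exact (map_injective (σ : E →+* E) σ.injective) (by rw [hσ, map_zero])
  · intro u hu
    apply hGEe
    intro h0
    apply hu
    rw [← hG] at h0
    exact (map_eq_zero _).1 h0
  · have h1 : HE ∣ GE := by
      rw [hGE]
      have h2 : HE = map ((1 : E ≃ₐ[F] E) : E →+* E) HE := by
        conv_lhs => rw [← map_id HE]
        rfl
      conv_lhs => rw [h2]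
      exact Finset.dvd_prod_of_mem (fun σ : E ≃ₐ[F] E => map (σ : E →+* E) HE)
        (Finset.mem_univ 1)
    have h2 := _root_.map_dvd (map (algebraMap E (AlgebraicClosure F))) h1
    rw [hmapHE, ← hGmap, map_map, ← IsScalarTower.algebraMap_eq] at h2
    exact h2

end Pool.Agent.X294.NormForm
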