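import Pool.Agent.X294.Ultra
import Pool.Agent.Helper259.AbsHt

set_option autoImplicit false

/-!
Heights of values of polynomials and of roots of polynomials with varying coefficients.
-/

namespace Pool.Agent.X294.OrbitHt

open MvPolynomial Filter
open Pool.Agent.Helper259.AbsHt

section hz

variable {ι : Type} (c : ι) (N : ℕ) (p : MvPolynomial ι Qbar)

/-- homogenisation with the variable `c` -/
noncomputable def hz : MvPolynomial ι Qbar :=
  ∑ e ∈ Finset.range (N + 1), X c ^ (N - e) * homogeneousComponent e p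

theorem hz_hom : (hz c N p).IsHomogeneous N := by
  refine IsHomogeneous.sum _ _ _ fun e he => ?_
  have h1 : (X c ^ (N - e) : MvPolynomial ι Qbar).IsHomogeneous (N - e) := by
    have := (isHomogeneous_X Qbar c).pow (N - e)
    simpa using this
  have h2 := h1.mul (homogeneousComponent_isHomogeneous e p)
  have h3 : N - e + e = N := Nat.sub_add_cancel (by
    have := Finset.mem_range.mp he
    omega)
  rwa [h3] at h2

theorem hz_eval (hN : p.totalDegree ≤ N) (v : ι → Qbar) (hv : v c = 1) :
    eval v (hz c N p) = eval v p := by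
  conv_rhs => rw [← sum_homogeneousComponent p]
  unfold hz
  rw [map_sum, map_sum]
  symm
  refine (Finset.sum_subset (s₂ := Finset.range (N + 1)) ?_ ?_).trans ?_
  · intro e he
    rw [Finset.mem_range] at he ⊢
    omega
  · intro e _ he
    rw [Finset.mem_range, not_lt] at he
    rw [homogeneousComponent_eq_zero _ _ (by omega), map_zero]
  · refine Finset.sum_congr rfl fun e _ => ?_
    rw [map_mul, map_pow, eval_X, hv, one_pow, one_mul]

end hz

/-- heights of polynomials in affine coordinates -/
theorem aff_eval {ι ι' : Type} [Fintype ι] [Fintype ι'] (p : ι' → MvPolynomial ι Qbar) (c : ι) :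
    ∃ (C : ℝ) (N : ℕ), ∀ v : ι → Qbar, v c = 1 →
      absLogHeight (fun j => eval v (p j)) ≤ C + N * absLogHeight v := by
  let N := Finset.univ.sup fun j => (p j).totalDegree
  obtain ⟨C, hC⟩ := absLogHeight_eval N (fun j => hz c N (p j)) (fun j => hz_hom c N (p j))
  refine ⟨C, N, fun v hv => ?_⟩
  have h := hC v
  have e : (fun j => eval v (hz c N (p j))) = fun j => eval v (p j) := by
    funext j
    exact hz_eval c N (p j) (Finset.le_sup (f := fun j => (p j).totalDegree)
      (Finset.mem_univ j)) v hv
  rwa [e] at h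

/-- heights of roots of polynomials with varying coefficients -/
theorem root_bound {ι : Type} [Fintype ι] (P : Polynomial (MvPolynomial ι Qbar)) (c : ι) :
    ∃ (C : ℝ) (N : ℕ), ∀ v : ι → Qbar, v c = 1 → ∀ z : Qbar, P.map (eval v) ≠ 0 →
      (P.map (eval v)).eval z = 0 → absLogHeight ![1, z] ≤ C + N * absLogHeight v := by
  obtain ⟨C1, h1⟩ := absLogHeight_root P.natDegree
  obtain ⟨C2, N, h2⟩ := aff_eval (fun i : Fin (P.natDegree + 1) => P.coeff i) c
  refine ⟨C1 + C2, N, fun v hv z hne hz => ?_⟩
  have h3 := h1 (P.map (eval v)) z hne Polynomial.natDegree_map_le hz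
  have h4 := h2 v hv
  have e : Pool.Agent.Helper259.HtPoly.cv P.natDegree (P.map (eval v)) =
      fun i : Fin (P.natDegree + 1) => eval v (P.coeff i) := by
    funext i
    show (P.map (eval v)).coeff i = _
    rw [Polynomial.coeff_map]
  rw [e] at h3
  linarith

/-- a finite choice may be made constant -/
theorem eventually_exists_const (U : Ultrafilter ℕ) {A : Type} [Finite A] (p : A → ℕ → Prop)
    (h : ∀ j, ∃ a, p a j) : ∃ a, ∀ᶠ j in (U : Filter ℕ), p a j := by
  by_contra hcon
  have h1 : ∀ a, ∀ᶠ j in (U : Filter ℕ), ¬ p a j := fun a =>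
    Ultrafilter.eventually_not.mpr (not_exists.mp hcon a)
  have h2 := eventually_all.mpr h1
  obtain ⟨j, hj⟩ := h2.exists
  obtain ⟨a, ha⟩ := h j
  exact hj a ha

/-- forms at multiples of a vector -/
theorem eval_smul_form {K : Type} [Field K] {ι : Type} [Fintype ι] {F : MvPolynomial ι K} {d : ℕ}
    (hF : F.IsHomogeneous d) (c : K) (v : ι → K) : eval (c • v) F = c ^ d * eval v F := by
  rw [eval_eq', eval_eq', Finset.mul_sum]
  refine Finset.sum_congr rfl fun s hs => ?_
  have hdeg : ∑ i, s i = d := by
    have := hF (mem_support_iff.mp hs)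
    rw [← this, Finsupp.weight_apply, Finsupp.sum_fintype _ _ (by simp)]
    simp
  simp only [Pi.smul_apply, smul_eq_mul, mul_pow]
  rw [Finset.prod_mul_distrib, Finset.prod_pow_eq_pow_sum, hdeg]
  ring

/-- equality of points -/
theorem mk_eq_mk_iff_cross {K : Type} [Field K] {ι : Type} {p q : ι → K} (hp : p ≠ 0)
    (hq : q ≠ 0) : Projectivization.mk K p hp = Projectivization.mk K q hq ↔
      ∀ i l, p i * q l = p l * q i := by
  rw [Projectivization.mk_eq_mk_iff']
  constructor
  · rintro ⟨a, rfl⟩ i l
    simp only [Pi.smul_apply, smul_eq_mul]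
    ring
  · intro h
    obtain ⟨c, hc⟩ := Function.ne_iff.mp hq
    simp only [Pi.zero_apply] at hc
    refine ⟨p c / q c, ?_⟩
    funext i
    simp only [Pi.smul_apply, smul_eq_mul]
    rw [div_mul_eq_mul_div, div_eq_iff hc, h i c]

end Pool.Agent.X294.OrbitHt
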