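import Mathlib

set_option autoImplicit false

/-!
Ultraproducts: algebraically closed fields, and a specialisation lemma.
-/

namespace Pool.Agent.X294.Ultra

open Filter

variable {k : Type*} [Field k] (U : Ultrafilter ℕ)

/-- the ultrapower -/
abbrev Star (k : Type*) (U : Ultrafilter ℕ) : Type _ := (U : Filter ℕ).Germ k

/-- the class of a sequence -/
noncomputable abbrev ρ : (ℕ → k) →+* Star k U := Germ.coeRingHom (U : Filter ℕ)

/-- constants -/
noncomputable def κ : k →+* Star k U := (ρ U).comp (Pi.constRingHom ℕ k)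

theorem ρ_eq_zero (s : ℕ → k) : ρ U s = 0 ↔ ∀ᶠ j in (U : Filter ℕ), s j = 0 := by
  have : ρ U s = ((s : ℕ → k) : Star k U) := rfl
  rw [this, ← Germ.coe_zero, Germ.coe_eq]
  rfl

theorem ρ_surj (x : Star k U) : ∃ s : ℕ → k, ρ U s = x := by
  induction x using Germ.inductionOn with
  | h f => exact ⟨f, rfl⟩

theorem eventually_ne (p : ℕ → Prop) : (∀ᶠ j in (U : Filter ℕ), ¬ p j) ↔
    ¬ ∀ᶠ j in (U : Filter ℕ), p j := Ultrafilter.eventually_not

theorem isAlgClosed [IsAlgClosed k] : IsAlgClosed (Star k U) := by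
  refine IsAlgClosed.of_exists_root _ fun p hm hirr => ?_
  have hdeg : 0 < p.natDegree := hirr.natDegree_pos
  choose a ha using fun i : ℕ => ρ_surj U (p.coeff i)
  set n := p.natDegree with hn
  let q : ℕ → Polynomial k := fun j =>
    Polynomial.X ^ n + ∑ i ∈ Finset.range n, Polynomial.C (a i j) * Polynomial.X ^ i
  have hq : ∀ j, ∃ r, (q j).eval r = 0 := by
    intro j
    have h1 : (∑ i ∈ Finset.range n, Polynomial.C (a i j) * Polynomial.X ^ i :
        Polynomial k).degree < (n : WithBot ℕ) := by
      rw [Polynomial.degree_lt_iff_coeff_zero]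
      intro m hm'
      rw [Polynomial.finsetSum_coeff]
      refine Finset.sum_eq_zero fun i hi => ?_
      rw [Polynomial.coeff_C_mul_X_pow, if_neg]
      have := Finset.mem_range.mp hi
      omega
    have h2 : (q j).degree = n := by
      show (Polynomial.X ^ n + _ : Polynomial k).degree = n
      rw [Polynomial.degree_add_eq_left_of_degree_lt, Polynomial.degree_X_pow]
      rw [Polynomial.degree_X_pow]; exact h1
    obtain ⟨r, hr⟩ := IsAlgClosed.exists_root (q j) (by
      rw [h2]; exact_mod_cast hdeg.ne')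
    exact ⟨r, hr⟩
  choose r hr using hq
  refine ⟨ρ U r, ?_⟩
  have h3 : p = Polynomial.X ^ n + ∑ i ∈ Finset.range n,
      Polynomial.C (p.coeff i) * Polynomial.X ^ i := hm.as_sum
  have h4 : p.eval (ρ U r) = ρ U (fun j => (q j).eval (r j)) := by
    conv_lhs => rw [h3]
    rw [Polynomial.eval_add, Polynomial.eval_pow, Polynomial.eval_X, Polynomial.eval_finsetSum]
    have : (fun j => (q j).eval (r j)) = r ^ n + ∑ i ∈ Finset.range n, a i * r ^ i := by
      funext j
      simp [q, Polynomial.eval_finsetSum]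
    rw [this, map_add, map_pow, map_sum]
    congr 1
    refine Finset.sum_congr rfl fun i _ => ?_
    rw [Polynomial.eval_mul, Polynomial.eval_C, Polynomial.eval_pow, Polynomial.eval_X, map_mul,
      map_pow, ha]
  rw [h4, ρ_eq_zero]
  exact Eventually.of_forall hr

theorem eval₂_ρ {σ : Type*} (s : σ → ℕ → k) (P : MvPolynomial σ k) :
    MvPolynomial.eval₂ (κ U) (fun i => ρ U (s i)) P =
      ρ U (fun j => MvPolynomial.eval (fun i => s i j) P) := by
  have h1 : (fun j => MvPolynomial.eval (fun i => s i j) P) =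
      MvPolynomial.eval₂ (Pi.constRingHom ℕ k) s P := by
    funext j
    have : (Pi.evalRingHom (fun _ : ℕ => k) j) (MvPolynomial.eval₂ (Pi.constRingHom ℕ k) s P) =
        _ := MvPolynomial.hom_eval₂ P (Pi.constRingHom ℕ k) (Pi.evalRingHom (fun _ : ℕ => k) j) s
    rw [Pi.evalRingHom_apply] at this
    rw [this]
    rfl
  rw [h1, MvPolynomial.hom_eval₂]
  rfl

/-- **Specialisation lemma.** -/
theorem spec [IsAlgClosed k] {σ τ : Type*} [Finite σ] (u : σ → ℕ → k) (v : τ → ℕ → k)
    (D : MvPolynomial (σ ⊕ τ) k)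
    (hD : ∀ᶠ j in (U : Filter ℕ),
      MvPolynomial.eval (Sum.elim (fun i => u i j) (fun t => v t j)) D ≠ 0) :
    ∃ (w : σ → ℕ → k) (P : σ → Polynomial (MvPolynomial τ k)),
      (∀ E : MvPolynomial (σ ⊕ τ) k, (∀ᶠ j in (U : Filter ℕ),
        MvPolynomial.eval (Sum.elim (fun i => u i j) (fun t => v t j)) E = 0) →
        ∀ᶠ j in (U : Filter ℕ),
          MvPolynomial.eval (Sum.elim (fun i => w i j) (fun t => v t j)) E = 0) ∧
      (∀ᶠ j in (U : Filter ℕ),
        MvPolynomial.eval (Sum.elim (fun i => w i j) (fun t => v t j)) D ≠ 0) ∧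
      ∀ i, ∀ᶠ j in (U : Filter ℕ), (P i).map (MvPolynomial.eval fun t => v t j) ≠ 0 ∧
        ((P i).map (MvPolynomial.eval fun t => v t j)).eval (w i j) = 0 := by
  let _ : Algebra k (Star k U) := (κ U).toAlgebra
  have : IsAlgClosed (Star k U) := isAlgClosed U
  let vs : τ → Star k U := fun t => ρ U (v t)
  let us : σ → Star k U := fun i => ρ U (u i)
  let F1 : IntermediateField k (Star k U) := IntermediateField.adjoin k (Set.range vs)
  let F0 := algebraicClosure F1 (Star k U)
  have : IsAlgClosed F0 := (algebraicClosure.isAlgClosure F1 (Star k U)).isAlgClosed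
  have hvs : ∀ t, vs t ∈ F1 := fun t => IntermediateField.subset_adjoin k _ ⟨t, rfl⟩
  -- specialise the parameters
  let sp : MvPolynomial (σ ⊕ τ) k →+* MvPolynomial σ F1 :=
    MvPolynomial.eval₂Hom ((MvPolynomial.C).comp (algebraMap k F1))
      (Sum.elim (fun i => MvPolynomial.X i) (fun t => MvPolynomial.C ⟨vs t, hvs t⟩))
  have hsp : ∀ (x : σ → Star k U) (E : MvPolynomial (σ ⊕ τ) k),
      MvPolynomial.aeval x (sp E) = MvPolynomial.eval₂ (κ U) (Sum.elim x vs) E := by
    intro x E
    show (MvPolynomial.aeval x : MvPolynomial σ F1 →ₐ[F1] Star k U).toRingHom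
      (MvPolynomial.eval₂ _ _ E) = _
    rw [MvPolynomial.hom_eval₂]
    congr 1
    · ext c
      simp
      rfl
    · funext a
      rcases a with i | t
      · simp
      · simp
  have hev : ∀ (x : σ → ℕ → k) (E : MvPolynomial (σ ⊕ τ) k),
      MvPolynomial.aeval (fun i => ρ U (x i)) (sp E) = ρ U (fun j =>
        MvPolynomial.eval (Sum.elim (fun i => x i j) (fun t => v t j)) E) := by
    intro x E
    rw [hsp]
    have e1 : (Sum.elim (fun i => ρ U (x i)) vs) = fun a => ρ U (Sum.elim x v a) := by
      funext a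
      rcases a with i | t <;> rfl
    rw [e1, eval₂_ρ]
    congr 1
    funext j
    congr 2
    funext a
    rcases a with i | t <;> rfl
  let J : Ideal (MvPolynomial σ F1) :=
    RingHom.ker (MvPolynomial.aeval us : MvPolynomial σ F1 →ₐ[F1] Star k U)
  have : J.IsPrime := RingHom.ker_isPrime _
  have hDJ : sp D ∉ J := by
    intro h
    have h1 : MvPolynomial.aeval us (sp D) = 0 := h
    rw [hev, ρ_eq_zero] at h1
    exact ((eventually_ne U _).mp hD) h1
  rw [← MvPolynomial.IsPrime.vanishingIdeal_zeroLocus (K := F0) J,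
    MvPolynomial.mem_vanishingIdeal_iff] at hDJ
  push Not at hDJ
  obtain ⟨x, hx, hxD⟩ := hDJ
  choose w hw using fun i => ρ_surj U ((x i : F0) : Star k U)
  have hx2 : ∀ E : MvPolynomial (σ ⊕ τ) k, ((MvPolynomial.aeval x (sp E) : F0) : Star k U) =
      ρ U (fun j => MvPolynomial.eval (Sum.elim (fun i => w i j) (fun t => v t j)) E) := by
    intro E
    rw [← hev]
    have e2 : (fun i => ρ U (w i)) = fun i => algebraMap F0 (Star k U) (x i) := by
      funext i
      exact hw i
    rw [e2]
    exact (MvPolynomial.aeval_algebraMap_apply (A := F0) (Star k U) x (sp E)).symm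
  -- algebraicity
  have halg : ∀ i, ∃ P : Polynomial (MvPolynomial τ k),
      P.map (MvPolynomial.eval₂Hom (κ U) vs) ≠ 0 ∧
      (P.map (MvPolynomial.eval₂Hom (κ U) vs)).eval (ρ U (w i)) = 0 := by
    intro i
    have h1 : IsAlgebraic F1 ((x i : F0) : Star k U) := by
      have := (x i).2
      exact mem_algebraicClosure_iff.mp this
    let A := Algebra.adjoin k (Set.range vs)
    have h2 : IsAlgebraic A ((x i : F0) : Star k U) := by
      open scoped IntermediateField.algebraAdjoinAdjoin in
      exact (IsFractionRing.isAlgebraic_iff A F1 (Star k U)).mpr h1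
    obtain ⟨p, hp0, hp⟩ := h2
    have hsurj : Function.Surjective ((MvPolynomial.aeval (R := k) vs).rangeRestrict) :=
      AlgHom.rangeRestrict_surjective _
    have hA : A = (MvPolynomial.aeval (R := k) vs).range :=
      Algebra.adjoin_range_eq_range_aeval k vs
    -- coefficients of p lift
    have hlift : ∀ l, ∃ c : MvPolynomial τ k, MvPolynomial.aeval vs c = (p.coeff l : Star k U) := by
      intro l
      have : (p.coeff l : Star k U) ∈ (MvPolynomial.aeval (R := k) vs).range := by
        rw [← hA]; exact (p.coeff l).2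
      exact this
    choose c hc using hlift
    let P : Polynomial (MvPolynomial τ k) := ∑ l ∈ p.support, Polynomial.monomial l (c l)
    have hPc : P.map (MvPolynomial.eval₂Hom (κ U) vs) = p.map (algebraMap A (Star k U)) := by
      conv_rhs => rw [p.as_sum_support]
      simp only [P, Polynomial.map_sum, Polynomial.map_monomial]
      refine Finset.sum_congr rfl fun l _ => ?_
      congr 1
      exact hc l
    refine ⟨P, ?_, ?_⟩
    · rw [hPc, Ne, Polynomial.map_eq_zero_iff (FaithfulSMul.algebraMap_injective A (Star k U))]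
      exact hp0
    · rw [hPc, hw, Polynomial.eval_map]
      exact hp
  choose P hP0 hP using halg
  refine ⟨w, P, ?_, ?_, ?_⟩
  · intro E hE
    have h1 : sp E ∈ J := by
      show MvPolynomial.aeval us (sp E) = 0
      rw [hev, ρ_eq_zero]
      exact hE
    have h2 := hx _ h1
    have h3 := hx2 E
    rw [h2] at h3
    rw [← ρ_eq_zero U]
    exact h3.symm
  · rw [eventually_ne, ← ρ_eq_zero U, ← hx2]
    intro h
    exact hxD (by exact_mod_cast h)
  · intro i
    have hcoef : ∀ l, MvPolynomial.eval₂Hom (κ U) vs ((P i).coeff l) =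
        ρ U (fun j => MvPolynomial.eval (fun t => v t j) ((P i).coeff l)) := fun l =>
      eval₂_ρ U v ((P i).coeff l)
    have h1 : ∃ l, MvPolynomial.eval₂Hom (κ U) vs ((P i).coeff l) ≠ 0 := by
      by_contra hcon
      push Not at hcon
      apply hP0 i
      ext l
      rw [Polynomial.coeff_map, hcon l, Polynomial.coeff_zero]
    obtain ⟨l, hl⟩ := h1
    rw [hcoef, Ne, ρ_eq_zero, ← eventually_ne] at hl
    have h2 : ∀ᶠ j in (U : Filter ℕ),
        ((P i).map (MvPolynomial.eval fun t => v t j)).eval (w i j) = 0 := by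
      have e3 : ∀ j, ((P i).map (MvPolynomial.eval fun t => v t j)).eval (w i j) =
          ∑ l ∈ Finset.range ((P i).natDegree + 1),
            MvPolynomial.eval (fun t => v t j) ((P i).coeff l) * w i j ^ l := by
        intro j
        rw [Polynomial.eval_map, Polynomial.eval₂_eq_sum_range]
      have e4 : ρ U (fun j => ((P i).map (MvPolynomial.eval fun t => v t j)).eval (w i j)) = 0 := by
        have e5 : (fun j => ((P i).map (MvPolynomial.eval fun t => v t j)).eval (w i j)) =
            ∑ l ∈ Finset.range ((P i).natDegree + 1),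
              (fun j => MvPolynomial.eval (fun t => v t j) ((P i).coeff l)) * (w i) ^ l := by
          funext j
          rw [e3 j, Finset.sum_apply]
          rfl
        rw [e5, map_sum, ← hP i, Polynomial.eval_map, Polynomial.eval₂_eq_sum_range]
        refine Finset.sum_congr rfl fun l _ => ?_
        rw [map_mul, map_pow, hcoef]
      exact (ρ_eq_zero U _).mp e4
    filter_upwards [hl, h2] with j hj1 hj2
    refine ⟨?_, hj2⟩
    intro h0
    apply hj1
    rw [← Polynomial.coeff_map, h0, Polynomial.coeff_zero]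

end Pool.Agent.X294.Ultra
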